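import Mathlib

/-!
# Project SF: many `S_n`-fields of degree `n` over `ℚ`

Statements of the modules.  See `sf_blueprint.md`.
-/

set_option autoImplicit false

open Polynomial

namespace Pool.Agent.D0H41.SF

/-- an algebraic closure of `ℚ` -/
abbrev Qb : Type := AlgebraicClosure ℚ

/-- All conjugates of `θ` have absolute value at most `T`. -/
def Siz (θ : Qb) (T : ℝ) : Prop := ∀ φ : Qb →+* ℂ, ‖φ θ‖ ≤ T

/-- Some conjugate of `θ` has absolute value at least `l`. -/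
def Lrg (θ : Qb) (l : ℝ) : Prop := ∃ φ : Qb →+* ℂ, l ≤ ‖φ θ‖

/-- The Galois group acts on the set of embeddings of `L` as the full symmetric group. -/
def Sym (L : IntermediateField ℚ Qb) : Prop :=
  ∀ τ : Equiv.Perm (L →ₐ[ℚ] Qb), ∃ σ : Qb ≃ₐ[ℚ] Qb, ∀ φ : L →ₐ[ℚ] Qb,
    τ φ = σ.toAlgHom.comp φ

/-- The absolute value of the discriminant of `L` is at most `X`. -/
def DB (L : IntermediateField ℚ Qb) (X : ℝ) : Prop :=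
  ∃ h : NumberField L, ((|@NumberField.discr L _ h| : ℤ) : ℝ) ≤ X

/-- The fields `L` of degree `n` with Galois group `S_n` and `|disc L| ≤ X`. -/
def SymF (n : ℕ) (X : ℝ) : Set (IntermediateField ℚ Qb) :=
  {L | Module.finrank ℚ L = n ∧ DB L X ∧ Sym L}

/-- The polynomial `X^n + a_{n-2} X^{n-2} + ... + a_0`. -/
noncomputable def pol (n : ℕ) (a : Fin (n - 1) → ℤ) : ℤ[X] :=
  X ^ n + ∑ i : Fin (n - 1), C (a i) * X ^ (i : ℕ)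

/-- the polynomial over `ℚ` -/
noncomputable def polQ (n : ℕ) (a : Fin (n - 1) → ℤ) : ℚ[X] :=
  (pol n a).map (Int.castRingHom ℚ)

/-- the value `∑ b_i m^i` -/
def ev {D : ℕ} (b : Fin D → ℤ) (m : ℤ) : ℤ := ∑ i : Fin D, b i * m ^ (i : ℕ)

/-- the value of the derivative, `∑ i b_i m^(i-1)` -/
def dv {D : ℕ} (b : Fin D → ℤ) (m : ℤ) : ℤ := ∑ i : Fin D, ((i : ℕ) : ℤ) * b i * m ^ ((i : ℕ) - 1)

/-- There are `k` independent short polynomials of degree `< k` which vanish at `m` modulo `r`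
(short: the coefficient of `x^j` is at most `K V^(n-2j)`). -/
def Short (k n V r : ℕ) (K : ℝ) (m : ℤ) : Prop :=
  ∃ g : Fin k → Fin k → ℤ, LinearIndependent ℚ (fun i j => ((g i j : ℤ) : ℚ)) ∧
    (∀ i, (r : ℤ) ∣ ev (g i) m) ∧
    ∀ i j, |((g i j : ℤ) : ℝ)| ≤ K * (V : ℝ) ^ (n - 2 * (j : ℕ))

/-! ### Geometry of numbers -/

/-- PAK: packing in a subspace. -/
def S_PAK : Prop := ∀ (E : Type) [NormedAddCommGroup E] [NormedSpace ℝ E] (W : Submodule ℝ E)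
  [FiniteDimensional ℝ W] (S : Finset E) (a b : ℝ), 0 ≤ a → 0 < b →
  (∀ x ∈ S, x ∈ W ∧ ‖x‖ ≤ a) → (∀ x ∈ S, ∀ y ∈ S, x ≠ y → b ≤ ‖x - y‖) →
  (S.card : ℝ) ≤ (1 + 2 * a / b) ^ (Module.finrank ℝ W)

/-- GM: for at least half of the `m` modulo `r` there are `k` independent short polynomials. -/
def S_GM : Prop := ∀ n k : ℕ, 2 ≤ k → 2 * k ≤ n → ∃ K : ℝ, 0 < K ∧ ∃ V₀ : ℕ, ∀ V r : ℕ, V₀ ≤ V →
  r.Prime → V ^ (k * (n + 1 - k)) < r → r ≤ 4 * V ^ (k * (n + 1 - k)) →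
  ∃ G : Finset ℕ, G ⊆ Finset.range r ∧ r ≤ 2 * G.card ∧ ∀ m ∈ G, Short k n V r K (m : ℤ)

/-- CO: the tails `b` of degree `≤ 2k-2` in a given class. -/
def S_CO : Prop := ∀ n k : ℕ, 2 ≤ k → 2 * k ≤ n → ∀ K : ℝ, 0 < K → ∃ C : ℝ, 0 < C ∧
  ∀ (V r : ℕ) (m : ℤ), 1 ≤ V → 1 ≤ r → r ≤ 4 * V ^ (k * (n + 1 - k)) → Short k n V r K m →
  ∀ s t : ℤ, ∃ B : Finset (Fin (2 * k - 1) → ℤ),
    V ^ ((k - 2) * (n + 1 - k)) ≤ 64 * B.card ∧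
    ∀ b ∈ B, (∀ i, |((b i : ℤ) : ℝ)| ≤ C * (V : ℝ) ^ (2 * (n - (i : ℕ)))) ∧
      (r : ℤ) ^ 2 ∣ ev b m - s ∧ (r : ℤ) ∣ dv b m - t

/-- PR: many primes. -/
def S_PR : Prop := ∀ e : ℕ, 1 ≤ e → ∃ V₀ : ℕ, ∀ V ≥ V₀,
  V ^ (e - 1) ≤ ((Finset.Ioc (V ^ e) (4 * V ^ e)).filter Nat.Prime).card

/-- the properties of the polynomials in the family -/
structure Good (n k V q : ℕ) (a0 : Fin (n - 1) → ℤ) (C : ℝ) (a : Fin (n - 1) → ℤ) : Prop where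
  size : ∀ i, |((a i : ℤ) : ℝ)| ≤ C * (V : ℝ) ^ (2 * (n - (i : ℕ)))
  cong : ∀ i, (q : ℤ) ∣ a i - a0 i
  index : ∃ r m : ℕ, V ^ (k * (n + 1 - k)) < r ∧ (r : ℤ) ^ 2 ∣ (pol n a).eval (m : ℤ) ∧
    (r : ℤ) ∣ (derivative (pol n a)).eval (m : ℤ)

/-- FAM: the family is large. -/
def S_FAM : Prop := ∀ n k q : ℕ, 2 ≤ k → 2 * k ≤ n → 1 ≤ q → ∀ a0 : Fin (n - 1) → ℤ,
  (∀ a : Fin (n - 1) → ℤ, (∀ i, (q : ℤ) ∣ a i - a0 i) → Irreducible (polQ n a)) →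
  ∃ C : ℝ, 0 < C ∧ ∃ V₀ : ℕ, ∀ V ≥ V₀, ∃ A : Finset (Fin (n - 1) → ℤ),
    V ^ (n ^ 2 + n - 4 - k * (n + 1 - k)) ≤ A.card ∧ ∀ a ∈ A, Good n k V q a0 C a

/-! ### Fields -/

/-- IDX: the discriminant of the field. -/
def S_IDX : Prop := ∀ (n : ℕ) (a : Fin (n - 1) → ℤ) (θ : Qb) (r : ℕ) (m : ℤ) (T : ℝ), 2 ≤ n →
  1 ≤ r → 1 ≤ T → Irreducible (polQ n a) → aeval θ (pol n a) = 0 →
  (r : ℤ) ^ 2 ∣ (pol n a).eval m → (r : ℤ) ∣ (derivative (pol n a)).eval m → Siz θ T →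
  Module.finrank ℚ (IntermediateField.adjoin ℚ {θ}) = n ∧
  DB (IntermediateField.adjoin ℚ {θ}) (((n.factorial : ℝ) * T ^ (n * (n - 1) / 2) / r) ^ 2)

/-- ROOT: the roots are small. -/
def S_ROOT : Prop := ∀ (n : ℕ) (C : ℝ), 2 ≤ n → 0 < C → ∃ C' : ℝ, 1 ≤ C' ∧
  ∀ (V : ℕ) (a : Fin (n - 1) → ℤ), 1 ≤ V →
  (∀ i, |((a i : ℤ) : ℝ)| ≤ C * (V : ℝ) ^ (2 * (n - (i : ℕ)))) →
  ∀ θ : Qb, aeval θ (pol n a) = 0 → Siz θ (C' * (V : ℝ) ^ 2)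

/-- SN: a congruence condition which forces the Galois group `S_n`. -/
def S_SN : Prop := ∀ n : ℕ, 4 ≤ n → ∃ q : ℕ, 1 ≤ q ∧ ∃ a0 : Fin (n - 1) → ℤ,
  ∀ a : Fin (n - 1) → ℤ, (∀ i, (q : ℤ) ∣ a i - a0 i) → Irreducible (polQ n a) ∧
    ∀ θ : Qb, aeval θ (pol n a) = 0 → Sym (IntermediateField.adjoin ℚ {θ})

/-- CAS: `J` small independent elements make the discriminant very small. -/
def S_CAS : Prop := ∀ (n J c : ℕ) (L : IntermediateField ℚ Qb) (T : ℝ) (w : Fin J → Qb),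
  2 ≤ n → Module.finrank ℚ L = n → Sym L → 1 ≤ J → n ≤ c * J + 1 → 1 ≤ T →
  (∀ i, w i ∈ L ∧ IsIntegral ℤ (w i) ∧ Siz (w i) T) →
  LinearIndependent ℚ (Fin.cons 1 w : Fin (J + 1) → Qb) →
  DB L (((n.factorial : ℝ) * T ^ (n * c)) ^ 2)

/-- PKF: packing in a field. -/
def S_PKF : Prop := ∀ (L : IntermediateField ℚ Qb) [FiniteDimensional ℚ L] (S : Finset Qb)
  (T l : ℝ) (d : ℕ), 0 < l → 0 ≤ T → (∀ x ∈ S, x ∈ L ∧ Siz x T) →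
  (∀ x ∈ S, ∀ y ∈ S, x ≠ y → Lrg (x - y) l) →
  Module.finrank ℚ (Submodule.span ℚ (S : Set Qb)) ≤ d → (S.card : ℝ) ≤ (1 + 2 * T / l) ^ d

/-- ONE: a nonzero algebraic integer has a conjugate of absolute value at least one. -/
def S_ONE : Prop := ∀ x : Qb, IsIntegral ℤ x → x ≠ 0 → Lrg x 1

/-- SMF: few fields with a small element. -/
def S_SMF : Prop := ∀ n : ℕ, 3 ≤ n → ∃ C : ℝ, 0 < C ∧ ∀ l : ℝ, 1 ≤ l →
  {L : IntermediateField ℚ Qb | Module.finrank ℚ L = n ∧ Sym L ∧ ∃ θ ∈ L, IsIntegral ℤ θ ∧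
    θ ∉ Set.range (algebraMap ℚ Qb) ∧ Siz θ l}.Finite ∧
  ({L : IntermediateField ℚ Qb | Module.finrank ℚ L = n ∧ Sym L ∧ ∃ θ ∈ L, IsIntegral ℤ θ ∧
    θ ∉ Set.range (algebraMap ℚ Qb) ∧ Siz θ l}.ncard : ℝ) ≤ C * l ^ (n * (n + 1) / 2)

/-- TRZ: different roots of trace zero differ by an irrational number. -/
def S_TRZ : Prop := ∀ (n : ℕ) (L : IntermediateField ℚ Qb) (a a' : Fin (n - 1) → ℤ) (x y : Qb),
  2 ≤ n → Module.finrank ℚ L = n → x ∈ L → y ∈ L → Irreducible (polQ n a) →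
  Irreducible (polQ n a') → aeval x (pol n a) = 0 → aeval y (pol n a') = 0 → x ≠ y →
  x - y ∉ Set.range (algebraMap ℚ Qb)

/-! ### Assembly -/

/-- the extensions of `ℚ` of degree `n` with `|disc| ≤ X` -/
def Flds (n : ℕ) (X : ℝ) : Set (IntermediateField ℚ Qb) := {L | Module.finrank ℚ L = n ∧ DB L X}

/-- VER: the count in terms of `V`. -/
def S_VER : Prop := ∀ (n k J c : ℕ) (E C₀ : ℝ), 2 ≤ k → 2 * k ≤ n → 1 ≤ J → n ≤ c * J + 1 →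
  0 ≤ E →
  (∀ X : ℝ, 1 ≤ X → (Flds n X).Finite ∧ ((Flds n X).ncard : ℝ) ≤ C₀ * X ^ E) →
  4 * n * c * E + 2 * n + 4 + k * (n + 1 - k : ℕ) < (n : ℝ) ^ 2 + n →
  n * (n + 1) / 2 + 2 * J + 4 + k * (n + 1 - k) < n ^ 2 + n →
  ∃ C : ℝ, 0 < C ∧ ∃ V₀ : ℕ, ∀ V ≥ V₀,
    (V : ℝ) ^ (n ^ 2 + n - 5 - J - k * (n + 1 - k)) ≤
      ((SymF n (C * (V : ℝ) ^ (2 * n * (n - 1) - 2 * k * (n + 1 - k)))).ncard : ℝ)

/-- EXP: the final exponent. -/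
def S_EXP : Prop := ∃ (C : ℝ) (n₀ : ℕ), ∀ n : ℕ, n₀ ≤ n → ∃ X₀ : ℝ, ∀ X : ℝ, X₀ ≤ X →
  (SymF n X).Finite ∧
  X ^ ((1 : ℝ) / 2 + 4 / (3 * n) - C * (Real.log n) ^ 2 / (n : ℝ) ^ 2) ≤ ((SymF n X).ncard : ℝ)

end Pool.Agent.D0H41.SF
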