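import Pool.Agent.D0H41.SF.Stm

set_option autoImplicit false

open Polynomial

namespace Pool.Agent.D0H41.SF

lemma deg_tail (n : ℕ) (hn : 2 ≤ n) (a : Fin (n - 1) → ℤ) :
    (∑ i : Fin (n - 1), C (a i) * X ^ (i : ℕ) : ℤ[X]).degree < (n : ℕ) := by
  refine (degree_sum_le _ _).trans_lt ?_
  rw [Finset.sup_lt_iff (by exact_mod_cast WithBot.bot_lt_coe n)]
  intro i _
  refine (degree_C_mul_X_pow_le _ _).trans_lt ?_
  exact_mod_cast (by omega : (i : ℕ) < n)

lemma pol_monic (n : ℕ) (hn : 2 ≤ n) (a : Fin (n - 1) → ℤ) : (pol n a).Monic :=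
  monic_X_pow_add (deg_tail n hn a)

lemma pol_natDegree (n : ℕ) (hn : 2 ≤ n) (a : Fin (n - 1) → ℤ) : (pol n a).natDegree = n := by
  unfold pol
  have h : (X ^ n + ∑ i : Fin (n - 1), C (a i) * X ^ (i : ℕ) : ℤ[X]).degree = n := by
    rw [degree_add_eq_left_of_degree_lt]
    · exact degree_X_pow n
    · rw [degree_X_pow]
      exact deg_tail n hn a
  exact natDegree_eq_of_degree_eq_some h

lemma pol_coeff (n : ℕ) (a : Fin (n - 1) → ℤ) (i : Fin (n - 1)) : (pol n a).coeff (i : ℕ) = a i := by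
  unfold pol
  rw [coeff_add, coeff_X_pow, finsetSum_coeff]
  have h1 : ¬ ((i : ℕ) = n) := by have := i.2; omega
  rw [if_neg h1, zero_add, Finset.sum_eq_single i]
  · simp
  · intro j _ hj
    rw [coeff_C_mul, coeff_X_pow, if_neg, mul_zero]
    exact fun h => hj (Fin.ext h.symm)
  · intro h
    exact absurd (Finset.mem_univ i) h

lemma pol_coeff_pred (n : ℕ) (hn : 2 ≤ n) (a : Fin (n - 1) → ℤ) : (pol n a).coeff (n - 1) = 0 := by
  unfold pol
  rw [coeff_add, coeff_X_pow, finsetSum_coeff, if_neg (by omega), zero_add]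
  apply Finset.sum_eq_zero
  intro j _
  rw [coeff_C_mul, coeff_X_pow, if_neg, mul_zero]
  have := j.2
  omega

lemma pol_inj (n : ℕ) {a a' : Fin (n - 1) → ℤ} (h : pol n a = pol n a') : a = a' := by
  funext i
  rw [← pol_coeff n a i, ← pol_coeff n a' i, h]

lemma polQ_monic (n : ℕ) (hn : 2 ≤ n) (a : Fin (n - 1) → ℤ) : (polQ n a).Monic :=
  (pol_monic n hn a).map _

lemma polQ_natDegree (n : ℕ) (hn : 2 ≤ n) (a : Fin (n - 1) → ℤ) : (polQ n a).natDegree = n := by
  unfold polQ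
  rw [(pol_monic n hn a).natDegree_map, pol_natDegree n hn]

lemma polQ_inj (n : ℕ) {a a' : Fin (n - 1) → ℤ} (h : polQ n a = polQ n a') : a = a' :=
  pol_inj n (map_injective _ (Int.cast_injective) h)

lemma aeval_polQ (n : ℕ) (a : Fin (n - 1) → ℤ) (θ : Qb) :
    aeval θ (polQ n a) = aeval θ (pol n a) := by
  unfold polQ
  rw [← algebraMap_int_eq, aeval_map_algebraMap]

lemma minpoly_root (n : ℕ) (hn : 2 ≤ n) (a : Fin (n - 1) → ℤ) (θ : Qb)
    (hi : Irreducible (polQ n a)) (h : aeval θ (pol n a) = 0) : minpoly ℚ θ = polQ n a := by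
  symm
  apply minpoly.eq_of_irreducible_of_monic hi _ (polQ_monic n hn a)
  rw [aeval_polQ, h]

lemma integral_root (n : ℕ) (hn : 2 ≤ n) (a : Fin (n - 1) → ℤ) (θ : Qb)
    (h : aeval θ (pol n a) = 0) : IsIntegral ℤ θ :=
  ⟨pol n a, pol_monic n hn a, by rwa [← aeval_def]⟩

/-- TRZ -/
theorem t_TRZ : S_TRZ := by
  intro n L a a' x y hn hL hx hy hia hia' hxa hya hne
  rintro ⟨c, hc⟩
  haveI : FiniteDimensional ℚ L := FiniteDimensional.of_finrank_pos (by omega)
  -- the trace of a root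
  have key : ∀ (b : Fin (n - 1) → ℤ) (z : Qb) (hz : z ∈ L), Irreducible (polQ n b) →
      aeval z (pol n b) = 0 → Algebra.trace ℚ L ⟨z, hz⟩ = 0 := by
    intro b z hz hi h0
    have h1 : minpoly ℚ (⟨z, hz⟩ : L) = polQ n b := by
      rw [← minpoly_root n hn b z hi h0]
      exact (minpoly.algebraMap_eq (algebraMap L Qb).injective (⟨z, hz⟩ : L)).symm
    have h2 : (minpoly ℚ (⟨z, hz⟩ : L)).natDegree = Module.finrank ℚ L := by
      rw [h1, polQ_natDegree n hn, hL]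
    rw [trace_eq_finrank_mul_minpoly_nextCoeff, h1]
    have h3 : (polQ n b).nextCoeff = 0 := by
      rw [nextCoeff_of_natDegree_pos (by rw [polQ_natDegree n hn]; omega),
        polQ_natDegree n hn]
      unfold polQ
      rw [coeff_map, pol_coeff_pred n hn, map_zero]
    rw [h3]
    simp
  have hx1 := key a x hx hia hxa
  have hy1 := key a' y hy hia' hya
  have h4 : (⟨x, hx⟩ : L) = ⟨y, hy⟩ + algebraMap ℚ L c := by
    apply Subtype.ext
    change x = y + algebraMap ℚ Qb c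
    rw [hc]
    ring
  have h5 : Algebra.trace ℚ L (algebraMap ℚ L c) = 0 := by
    have := congrArg (Algebra.trace ℚ L) h4
    rw [map_add, hx1, hy1, zero_add] at this
    exact this.symm
  rw [Algebra.trace_algebraMap, hL] at h5
  have h6 : c = 0 := by
    rw [nsmul_eq_mul] at h5
    rcases mul_eq_zero.mp h5 with h | h
    · exact absurd h (by exact_mod_cast (by omega : n ≠ 0))
    · exact h
  rw [h6, map_zero] at hc
  exact hne (sub_eq_zero.mp hc.symm)

/-- ROOT -/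
theorem t_ROOT : S_ROOT := by
  intro n C hn hC
  set C1 : ℝ := max 1 C with hC1
  have hC1' : 1 ≤ C1 := le_max_left _ _
  have hCC : C ≤ C1 := le_max_right _ _
  refine ⟨2 * C1, by linarith, ?_⟩
  intro V a hV ha θ hθ φ
  by_contra hcon
  push Not at hcon
  set z : ℂ := φ θ with hz
  have hV' : (1 : ℝ) ≤ (V : ℝ) := by exact_mod_cast hV
  set B : ℝ := C1 * (V : ℝ) ^ 2 with hB
  have hB1 : 1 ≤ B := by
    rw [hB]
    nlinarith [one_le_pow₀ hV' (n := 2)]
  have hzB : 2 * B < ‖z‖ := by rw [hB]; linarith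
  -- the equation
  have heq : z ^ n = - ∑ i : Fin (n - 1), ((a i : ℤ) : ℂ) * z ^ (i : ℕ) := by
    have h1 := congrArg φ hθ
    unfold pol at h1
    simp only [map_add, map_pow, aeval_X, map_sum, map_mul, aeval_C, map_zero] at h1
    simp only [algebraMap_int_eq, Int.coe_castRingHom, map_intCast, eq_intCast] at h1
    rw [← hz] at h1
    linear_combination h1
  have hz0 : 0 < ‖z‖ := by linarith
  have h2 : ‖z‖ ^ n ≤ ∑ i : Fin (n - 1), B ^ (n - (i : ℕ)) * ‖z‖ ^ (i : ℕ) := by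
    rw [← norm_pow, heq, norm_neg]
    refine (norm_sum_le _ _).trans ?_
    apply Finset.sum_le_sum
    intro i _
    rw [norm_mul, norm_pow]
    apply mul_le_mul_of_nonneg_right _ (by positivity)
    have h3 := ha i
    have h4 : ‖((a i : ℤ) : ℂ)‖ = |((a i : ℤ) : ℝ)| := by
      rw [Complex.norm_intCast]
    rw [h4]
    refine h3.trans ?_
    rw [hB, mul_pow, ← pow_mul]
    apply mul_le_mul_of_nonneg_right _ (by positivity)
    refine hCC.trans ?_
    calc C1 = C1 ^ 1 := (pow_one _).symm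
      _ ≤ C1 ^ (n - (i : ℕ)) := by
        apply pow_le_pow_right₀ hC1'
        have := i.2
        omega
  have h5 : ∀ i : Fin (n - 1), B ^ (n - (i : ℕ)) * ‖z‖ ^ (i : ℕ) ≤ ‖z‖ ^ n * (1 / 2) ^ (n - (i : ℕ)) := by
    intro i
    have hi : (i : ℕ) < n - 1 := i.2
    have h6 : ‖z‖ ^ n = ‖z‖ ^ (n - (i : ℕ)) * ‖z‖ ^ (i : ℕ) := by
      rw [← pow_add]
      congr 1
      omega
    rw [h6]
    have h7 : B ^ (n - (i : ℕ)) ≤ ‖z‖ ^ (n - (i : ℕ)) * (1 / 2) ^ (n - (i : ℕ)) := by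
      rw [← mul_pow]
      apply pow_le_pow_left₀ (by linarith)
      linarith
    calc B ^ (n - (i : ℕ)) * ‖z‖ ^ (i : ℕ)
        ≤ (‖z‖ ^ (n - (i : ℕ)) * (1 / 2) ^ (n - (i : ℕ))) * ‖z‖ ^ (i : ℕ) :=
          mul_le_mul_of_nonneg_right h7 (by positivity)
      _ = _ := by ring
  have h8 : ∑ i : Fin (n - 1), ((1 : ℝ) / 2) ^ (n - (i : ℕ)) < 1 := by
    have h9 : ∑ i : Fin (n - 1), ((1 : ℝ) / 2) ^ (n - (i : ℕ)) =
        ∑ i ∈ Finset.range (n - 1), ((1 : ℝ) / 2) ^ (n - i) :=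
      Fin.sum_univ_eq_sum_range (fun i => ((1 : ℝ) / 2) ^ (n - i)) (n - 1)
    rw [h9, ← Finset.sum_range_reflect]
    have h10 : ∀ j ∈ Finset.range (n - 1), ((1 : ℝ) / 2) ^ (n - (n - 1 - 1 - j)) =
        (1 / 4) * (1 / 2) ^ j := by
      intro j hj
      rw [Finset.mem_range] at hj
      have h11 : n - (n - 1 - 1 - j) = 2 + j := by omega
      rw [h11, pow_add]
      norm_num
    rw [Finset.sum_congr rfl h10, ← Finset.mul_sum]
    have h12 : ∑ i ∈ Finset.range (n - 1), ((1 : ℝ) / 2) ^ i < 2 := by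
      rw [geom_sum_eq (by norm_num)]
      have h13 : (0 : ℝ) < (1 / 2) ^ (n - 1) := by positivity
      have h14 : (((1 : ℝ) / 2) ^ (n - 1) - 1) / (1 / 2 - 1) = 2 - 2 * (1 / 2) ^ (n - 1) := by
        field_simp
        ring
      rw [h14]
      linarith
    linarith
  have h15 : ‖z‖ ^ n ≤ ‖z‖ ^ n * ∑ i : Fin (n - 1), ((1 : ℝ) / 2) ^ (n - (i : ℕ)) := by
    rw [Finset.mul_sum]
    exact h2.trans (Finset.sum_le_sum fun i _ => h5 i)
  have h16 : 0 < ‖z‖ ^ n := by positivity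
  nlinarith

end Pool.Agent.D0H41.SF
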