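import Pool.Agent.D0H41.SF.Basic

set_option autoImplicit false

open Polynomial

namespace Pool.Agent.D0H41.SF

open scoped Classical in
lemma count3 {α β : Type*} (A : Finset α) (Lf : α → β) (P Q : β → Prop)
    (b1 b2 b3 N1 N2 N3 : ℝ) (hb1 : 0 ≤ b1) (hb2 : 0 ≤ b2) (hb3 : 0 ≤ b3)
    (h1 : ∀ L ∈ A.image Lf, P L → ((A.filter (fun a => Lf a = L)).card : ℝ) ≤ b1)
    (h2 : ∀ L ∈ A.image Lf, ¬ P L → Q L → ((A.filter (fun a => Lf a = L)).card : ℝ) ≤ b2)
    (h3 : ∀ L ∈ A.image Lf, ¬ P L → ¬ Q L → ((A.filter (fun a => Lf a = L)).card : ℝ) ≤ b3)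
    (n1 : (((A.image Lf).filter P).card : ℝ) ≤ N1)
    (n2 : (((A.image Lf).filter Q).card : ℝ) ≤ N2)
    (n3 : ((A.image Lf).card : ℝ) ≤ N3) :
    (A.card : ℝ) ≤ N1 * b1 + N2 * b2 + N3 * b3 := by
  have h0 : (A.card : ℝ) = ∑ L ∈ A.image Lf, ((A.filter (fun a => Lf a = L)).card : ℝ) := by
    rw [Finset.card_eq_sum_card_image Lf A]
    push_cast
    rfl
  rw [h0]
  have h4 : ∑ L ∈ A.image Lf, ((A.filter (fun a => Lf a = L)).card : ℝ) ≤
      ∑ L ∈ A.image Lf, ((if P L then b1 else 0) + (if Q L then b2 else 0) + b3) := by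
    apply Finset.sum_le_sum
    intro L hL
    by_cases hP : P L
    · have := h1 L hL hP
      rw [if_pos hP]
      have h5 : 0 ≤ (if Q L then b2 else 0) := by split_ifs <;> simp [hb2]
      linarith
    · rw [if_neg hP]
      by_cases hQ : Q L
      · have := h2 L hL hP hQ
        rw [if_pos hQ]
        linarith
      · have := h3 L hL hP hQ
        rw [if_neg hQ]
        linarith
  refine h4.trans ?_
  rw [Finset.sum_add_distrib, Finset.sum_add_distrib, ← Finset.sum_filter, ← Finset.sum_filter,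
    Finset.sum_const, Finset.sum_const, Finset.sum_const, nsmul_eq_mul, nsmul_eq_mul, nsmul_eq_mul]
  gcongr

lemma eventual (M J x2 : ℕ) (x1 c1 c2 c3 : ℝ) (hc1 : 0 ≤ c1) (hc2 : 0 ≤ c2) (hc3 : 0 < c3)
    (h1 : x1 < M) (h2 : x2 < M) (hM : J + 1 ≤ M) :
    ∃ V₀ : ℕ, ∀ V ≥ V₀, ∀ N : ℝ,
      (V : ℝ) ^ M ≤ c1 * (V : ℝ) ^ x1 + c2 * (V : ℝ) ^ x2 + N * (c3 * (V : ℝ) ^ J) →
      (V : ℝ) ^ (M - J - 1) ≤ N := by
  have t1 : Filter.Tendsto (fun V : ℕ => c1 * (V : ℝ) ^ (-((M : ℝ) - x1))) Filter.atTop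
      (nhds 0) := by
    have := (tendsto_rpow_neg_atTop (sub_pos.2 h1)).comp tendsto_natCast_atTop_atTop
    simpa using this.const_mul c1
  have h1' := t1.eventually (gt_mem_nhds (show (0 : ℝ) < 1 / 4 by norm_num))
  obtain ⟨V1, hV1⟩ := Filter.eventually_atTop.1 h1'
  obtain ⟨V2, hV2⟩ := exists_nat_ge (4 * c2)
  obtain ⟨V3, hV3⟩ := exists_nat_ge (2 * c3)
  refine ⟨max (max V1 V2) (max V3 1), ?_⟩
  intro V hV N hN
  have hVa : V1 ≤ V := le_trans (le_trans (le_max_left _ _) (le_max_left _ _)) hV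
  have hVb : V2 ≤ V := le_trans (le_trans (le_max_right _ _) (le_max_left _ _)) hV
  have hVc : V3 ≤ V := le_trans (le_trans (le_max_left _ _) (le_max_right _ _)) hV
  have hVd : 1 ≤ V := le_trans (le_trans (le_max_right _ _) (le_max_right _ _)) hV
  have hV0 : (0 : ℝ) < V := by exact_mod_cast hVd
  have hV1' : (1 : ℝ) ≤ V := by exact_mod_cast hVd
  have e1 : c1 * (V : ℝ) ^ x1 ≤ 1 / 4 * (V : ℝ) ^ M := by
    have h3 := hV1 V hVa
    have h4 : (V : ℝ) ^ x1 = (V : ℝ) ^ (-((M : ℝ) - x1)) * (V : ℝ) ^ M := by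
      rw [← Real.rpow_natCast (V : ℝ) M, ← Real.rpow_add hV0]
      congr 1
      ring
    rw [h4, ← mul_assoc]
    exact mul_le_mul_of_nonneg_right h3.le (by positivity)
  have e2 : c2 * (V : ℝ) ^ x2 ≤ 1 / 4 * (V : ℝ) ^ M := by
    have h3 : (V : ℝ) ^ (x2 + 1) ≤ (V : ℝ) ^ M := pow_le_pow_right₀ hV1' h2
    have h4 : 4 * c2 ≤ (V : ℝ) := hV2.trans (by exact_mod_cast hVb)
    rw [pow_succ] at h3
    have h5 : 0 < (V : ℝ) ^ x2 := by positivity
    nlinarith
  have e3 : 1 / 2 * (V : ℝ) ^ M ≤ N * (c3 * (V : ℝ) ^ J) := by linarith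
  have h6 : (V : ℝ) ^ M = (V : ℝ) ^ (M - J - 1) * (V : ℝ) * (V : ℝ) ^ J := by
    rw [← pow_succ, ← pow_add]
    congr 1
    omega
  have h7 : 2 * c3 ≤ (V : ℝ) := hV3.trans (by exact_mod_cast hVc)
  have h8 : 0 < (V : ℝ) ^ J := by positivity
  rw [h6] at e3
  have h9 : 1 / 2 * ((V : ℝ) ^ (M - J - 1) * (V : ℝ)) ≤ N * c3 := by
    by_contra h
    push Not at h
    nlinarith
  have h10 : 0 < (V : ℝ) ^ (M - J - 1) := by positivity
  have h11 : (V : ℝ) ^ (M - J - 1) * c3 ≤ N * c3 := by nlinarith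
  exact le_of_mul_le_mul_right h11 hc3

lemma extract (S : Finset Qb) (J : ℕ) (h : J < Module.finrank ℚ (Submodule.span ℚ (S : Set Qb))) :
    ∃ w : Fin J → Qb, (∀ i, w i ∈ S) ∧
      LinearIndependent ℚ (Fin.cons 1 w : Fin (J + 1) → Qb) := by
  classical
  have h1 : LinearIndepOn ℚ id ({1} : Set Qb) := by
    simp
  obtain ⟨b, hbt, h1b, hspan, hb⟩ := exists_linearIndepOn_id_extension h1
    (show ({1} : Set Qb) ⊆ insert 1 (S : Set Qb) from by simp)
  have hbfin : b.Finite := Set.Finite.subset (by simp) hbt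
  have hcard : J + 1 ≤ hbfin.toFinset.card := by
    have h2 : Submodule.span ℚ (S : Set Qb) ≤ Submodule.span ℚ b := by
      rw [Submodule.span_le]
      exact (Set.subset_insert _ _).trans hspan
    have h3 : Module.finrank ℚ (Submodule.span ℚ b) ≤ hbfin.toFinset.card := by
      have h4 := finrank_span_finset_le_card (R := ℚ) hbfin.toFinset
      rw [Set.Finite.coe_toFinset] at h4
      exact h4
    have : FiniteDimensional ℚ (Submodule.span ℚ b) := FiniteDimensional.span_of_finite ℚ hbfin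
    have h4 := Submodule.finrank_mono h2
    omega
  have h1mem : (1 : Qb) ∈ hbfin.toFinset := by
    rw [Set.Finite.mem_toFinset]
    exact h1b (Set.mem_singleton _)
  have hcard2 : J ≤ (hbfin.toFinset.erase 1).card := by
    rw [Finset.card_erase_of_mem h1mem]
    omega
  obtain ⟨t, ht, htc⟩ := Finset.exists_subset_card_eq hcard2
  let f : Fin J ≃ t := (Fintype.equivFinOfCardEq (by simpa using htc)).symm
  have hft : ∀ i, (f i : Qb) ∈ hbfin.toFinset.erase 1 := fun i => ht (f i).2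
  refine ⟨fun i => (f i : Qb), ?_, ?_⟩
  · intro i
    have h5 := hft i
    rw [Finset.mem_erase, Set.Finite.mem_toFinset] at h5
    rcases hbt h5.2 with h6 | h6
    · exact absurd h6 h5.1
    · exact h6
  · have hmem : ∀ i : Fin (J + 1), (Fin.cons 1 (fun i => (f i : Qb)) : Fin (J + 1) → Qb) i ∈ b := by
      intro i
      refine Fin.cases ?_ ?_ i
      · simpa using h1b (Set.mem_singleton _)
      · intro j
        have h5 := hft j
        rw [Finset.mem_erase, Set.Finite.mem_toFinset] at h5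
        simpa using h5.2
    have hinj : Function.Injective (fun i : Fin (J + 1) =>
        (⟨(Fin.cons 1 (fun i => (f i : Qb)) : Fin (J + 1) → Qb) i, hmem i⟩ : b)) := by
      intro i j hij
      have h6 : (Fin.cons 1 (fun i => (f i : Qb)) : Fin (J + 1) → Qb) i =
          (Fin.cons 1 (fun i => (f i : Qb)) : Fin (J + 1) → Qb) j := congrArg Subtype.val hij
      revert h6
      refine Fin.cases ?_ ?_ i <;> refine Fin.cases ?_ ?_ j
      · intro _
        rfl
      · intro j' h6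
        exfalso
        have h7 := hft j'
        rw [Finset.mem_erase] at h7
        exact h7.1 (by simpa using h6.symm)
      · intro i' h6
        exfalso
        have h7 := hft i'
        rw [Finset.mem_erase] at h7
        exact h7.1 (by simpa using h6)
      · intro j' i' h6
        have h7 : (f i' : Qb) = (f j' : Qb) := by simpa using h6
        have h8 : i' = j' := f.injective (Subtype.ext h7)
        rw [h8]
    have h7 := LinearIndependent.comp (hb.linearIndependent) _ hinj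
    exact h7

end Pool.Agent.D0H41.SF
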