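import Pool.Agent.D0H41.SF.VerB
import Pool.Agent.D0H41.SF.Exp
import Pool.Agent.D0H87.SF.FAM
import Pool.Agent.D0H87.SF.GM
import Pool.Agent.D0H87.SF.CO
import Pool.Agent.D0H87.SF.PAK
import Pool.Agent.D0H87.SF.PR
import Pool.Agent.D0H87.SF.IDX
import Pool.Agent.D0H15.SF.Cas
import Pool.Agent.D0H15.SF.Smf
import Pool.Agent.D0H52.SF.One
import Pool.Agent.D0H52.SF.Pkf
import Pool.Agent.D0H42.SF.Ex

/-!
# Assembly of project SF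
-/

set_option autoImplicit false

namespace Pool.Agent.D0H41.SF

theorem fam : S_FAM :=
  Pool.Agent.D0H87.SF.FAM.t_FAM (Pool.Agent.D0H87.SF.GM.t_GM Pool.Agent.D0H87.SF.PAK.t_PAK)
    Pool.Agent.D0H87.SF.CO.t_CO Pool.Agent.D0H87.SF.PR.t_PR

theorem ver : S_VER :=
  t_VER fam Pool.Agent.D0H42.SF.t_SN Pool.Agent.D0H87.SF.IDX.t_IDX Pool.Agent.D0H15.SF.t_CAS
    (Pool.Agent.D0H52.SF.t_PKF Pool.Agent.D0H87.SF.PAK.t_PAK) Pool.Agent.D0H52.SF.t_ONE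
    Pool.Agent.D0H15.SF.t_SMF

theorem final : ∃ n₀ : ℕ, ∀ n : ℕ, n₀ ≤ n → ∃ X₀ : ℝ, ∀ X : ℝ, X₀ ≤ X →
    (SymF n X).Finite ∧
    X ^ ((1 : ℝ) / 2 + 4 / (3 * n) - 16 * (Real.log n) ^ 2 / (n : ℝ) ^ 2) ≤
      ((SymF n X).ncard : ℝ) := t_EXP ver

end Pool.Agent.D0H41.SF
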