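import Pool.Agent.D0H41.SF.VerA

set_option autoImplicit false

open Polynomial

namespace Pool.Agent.D0H41.SF

open IntermediateField (adjoin)

lemma root_inj (n : ℕ) (hn : 2 ≤ n) (θ : (Fin (n - 1) → ℤ) → Qb)
    (hθ : ∀ a, aeval (θ a) (pol n a) = 0) (A : Finset (Fin (n - 1) → ℤ))
    (hirr : ∀ a ∈ A, Irreducible (polQ n a)) :
    Set.InjOn θ (A : Set (Fin (n - 1) → ℤ)) := by
  intro a ha a' ha' h
  have h1 := minpoly_root n hn a (θ a) (hirr a ha) (hθ a)
  have h2 := minpoly_root n hn a' (θ a') (hirr a' ha') (hθ a')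
  rw [h] at h1
  exact polQ_inj n (h1.symm.trans h2)

lemma DB_mono {L : IntermediateField ℚ Qb} {X Y : ℝ} (h : DB L X) (hXY : X ≤ Y) : DB L Y := by
  obtain ⟨h1, h2⟩ := h
  exact ⟨h1, h2.trans hXY⟩

lemma Siz_mono {x : Qb} {T T' : ℝ} (h : Siz x T) (hT : T ≤ T') : Siz x T' :=
  fun φ => (h φ).trans hT

open scoped Classical in
/-- the bounds for one fibre -/
lemma fibre (hPKF : S_PKF) (n : ℕ) (hn : 2 ≤ n) (θ : (Fin (n - 1) → ℤ) → Qb)
    (hθ : ∀ a, aeval (θ a) (pol n a) = 0) (A : Finset (Fin (n - 1) → ℤ))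
    (hirr : ∀ a ∈ A, Irreducible (polQ n a)) (T : ℝ) (hT : 1 ≤ T)
    (hsiz : ∀ a ∈ A, Siz (θ a) T) (L : IntermediateField ℚ Qb) (hL : Module.finrank ℚ L = n)
    (l : ℝ) (hl : 0 < l) (d : ℕ)
    (hd : Module.finrank ℚ (Submodule.span ℚ (((A.filter (fun a => adjoin ℚ {θ a} = L)).image θ :
      Finset Qb) : Set Qb)) ≤ d)
    (hlrg : ∀ x ∈ (A.filter (fun a => adjoin ℚ {θ a} = L)).image θ,
      ∀ y ∈ (A.filter (fun a => adjoin ℚ {θ a} = L)).image θ, x ≠ y → Lrg (x - y) l) :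
    ((A.filter (fun a => adjoin ℚ {θ a} = L)).card : ℝ) ≤ (1 + 2 * T / l) ^ d := by
  have : FiniteDimensional ℚ L := FiniteDimensional.of_finrank_pos (by omega)
  have h1 : ((A.filter (fun a => adjoin ℚ {θ a} = L)).image θ).card =
      (A.filter (fun a => adjoin ℚ {θ a} = L)).card := by
    apply Finset.card_image_of_injOn
    exact (root_inj n hn θ hθ A hirr).mono (by
      intro a ha
      exact (Finset.mem_filter.1 ha).1)
  rw [← h1]
  apply hPKF L _ T l d hl (by linarith) _ hlrg hd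
  intro x hx
  obtain ⟨a, ha, rfl⟩ := Finset.mem_image.1 hx
  rw [Finset.mem_filter] at ha
  refine ⟨?_, hsiz a ha.1⟩
  rw [← ha.2]
  exact IntermediateField.mem_adjoin_simple_self ℚ (θ a)

open scoped Classical in
/-- VER -/
theorem t_VER (hFAM : S_FAM) (hSN : S_SN) (hIDX : S_IDX) (hCAS : S_CAS) (hPKF : S_PKF)
    (hONE : S_ONE) (hSMF : S_SMF) : S_VER := by
  intro n k J c E C₀ h2k hkn hJ hc hE hF hA hB
  have hn4 : 4 ≤ n := by omega
  obtain ⟨q, hq, a0, hsn⟩ := hSN n hn4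
  obtain ⟨C1, hC1, V1, hfam⟩ := hFAM n k q h2k hkn hq a0 (fun a ha => (hsn a ha).1)
  obtain ⟨C2, hC2, hroot⟩ := t_ROOT n C1 (by omega) hC1
  obtain ⟨C3, hC3, hsmf⟩ := hSMF n (by omega)
  have hex : ∀ a : Fin (n - 1) → ℤ, ∃ z : Qb, aeval z (pol n a) = 0 := by
    intro a
    obtain ⟨z, hz⟩ := IsAlgClosed.exists_aeval_eq_zero (k := Qb) (R := ℚ) (polQ n a) (by
      rw [degree_eq_natDegree (polQ_monic n (by omega) a).ne_zero, polQ_natDegree n (by omega)]
      exact_mod_cast (by omega : n ≠ 0))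
    exact ⟨z, by rw [← aeval_polQ]; exact hz⟩
  choose θ hθ using hex
  have hC0 : 0 ≤ C₀ := by
    have h1 := (hF 1 le_rfl).2
    rw [Real.one_rpow, mul_one] at h1
    exact le_trans (Nat.cast_nonneg _) h1
  set e : ℕ := k * (n + 1 - k) with he
  have he1 : e ≤ n * (n - 1) := by
    obtain ⟨j, rfl⟩ : ∃ j, n = 2 * k + j := ⟨n - 2 * k, by omega⟩
    have h1 : 2 * k + j + 1 - k = k + j + 1 := by omega
    have h2 : 2 * k + j - 1 + 1 = 2 * k + j := by omega
    rw [he, h1]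
    obtain ⟨i, hi⟩ : ∃ i, 2 * k + j - 1 = i := ⟨_, rfl⟩
    rw [hi] at h2 ⊢
    have h3 : k + j + 1 ≤ i := by omega
    nlinarith
  set D : ℕ := 2 * n * (n - 1) - 2 * k * (n + 1 - k) with hD
  have hD1 : D + 2 * e = 2 * (n * (n - 1)) := by
    rw [hD, he]
    have h1 : 2 * k * (n + 1 - k) = 2 * e := by rw [he]; ring
    have h2 : 2 * n * (n - 1) = 2 * (n * (n - 1)) := by ring
    rw [h1, h2]
    omega
  set w : ℕ := n * (n - 1) / 2 with hw
  have hw2 : 2 * w = n * (n - 1) := by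
    rw [hw]
    exact Nat.two_mul_div_two_of_even (Nat.even_mul_pred_self n)
  set K0 : ℝ := (n.factorial : ℝ) * C2 ^ w with hK0
  have hfac : (1 : ℝ) ≤ (n.factorial : ℝ) := by exact_mod_cast Nat.one_le_iff_ne_zero.2 n.factorial_ne_zero
  have hK01 : 1 ≤ K0 := by
    rw [hK0]
    have h1 : (1 : ℝ) ≤ C2 ^ w := one_le_pow₀ hC2
    nlinarith
  set KA : ℝ := (n.factorial : ℝ) * C2 ^ (n * c) with hKA
  have hKA1 : 1 ≤ KA := by
    rw [hKA]
    have h1 : (1 : ℝ) ≤ C2 ^ (n * c) := one_le_pow₀ hC2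
    nlinarith
  -- the inequality for large V
  obtain ⟨V2, hev⟩ := eventual (n ^ 2 + n - 4 - e) J (n * (n + 1) / 2 + 2 * J)
    (4 * n * c * E + 2 * n) (C₀ * (KA ^ 2) ^ E * (3 * C2) ^ n) (C3 * (3 * C2) ^ J) ((3 * C2) ^ J)
    (by positivity) (by positivity) (by positivity)
    (by
      have h1 : 4 + e ≤ n ^ 2 + n := by omega
      have h2 : ((n ^ 2 + n - 4 - e : ℕ) : ℝ) = (n : ℝ) ^ 2 + n - 4 - e := by
        rw [Nat.sub_sub, Nat.cast_sub h1]
        push_cast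
        ring
      rw [h2]
      have h3 : ((e : ℕ) : ℝ) = (k : ℝ) * ((n + 1 - k : ℕ) : ℝ) := by rw [he]; push_cast; ring
      rw [h3]
      linarith)
    (by omega) (by omega)
  refine ⟨K0 ^ 2, by positivity, max (max V1 V2) 1, ?_⟩
  intro V hV
  have hVa : V1 ≤ V := le_trans (le_trans (le_max_left _ _) (le_max_left _ _)) hV
  have hVb : V2 ≤ V := le_trans (le_trans (le_max_right _ _) (le_max_left _ _)) hV
  have hVd : 1 ≤ V := le_trans (le_max_right _ _) hV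
  have hV0 : (0 : ℝ) < V := by exact_mod_cast hVd
  have hV1' : (1 : ℝ) ≤ V := by exact_mod_cast hVd
  obtain ⟨A, hAc, hAg⟩ := hfam V hVa
  set T : ℝ := C2 * (V : ℝ) ^ 2 with hT
  have hT1 : 1 ≤ T := by
    rw [hT]
    have h1 : (1 : ℝ) ≤ (V : ℝ) ^ 2 := one_le_pow₀ hV1'
    nlinarith
  have hirr : ∀ a ∈ A, Irreducible (polQ n a) := fun a ha => (hsn a (hAg a ha).cong).1
  have hsiz : ∀ a ∈ A, Siz (θ a) T := fun a ha => hroot V a hVd (hAg a ha).size (θ a) (hθ a)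
  have hint : ∀ a, IsIntegral ℤ (θ a) := fun a => integral_root n (by omega) a (θ a) (hθ a)
  set XV : ℝ := K0 ^ 2 * (V : ℝ) ^ D with hXV
  have hXV1 : 1 ≤ XV := by
    have h1 : (1 : ℝ) ≤ (V : ℝ) ^ D := one_le_pow₀ hV1'
    have h2 : (1 : ℝ) ≤ K0 ^ 2 := one_le_pow₀ hK01
    nlinarith
  -- the fields
  have hfld : ∀ a ∈ A, Module.finrank ℚ (adjoin ℚ {θ a}) = n ∧ Sym (adjoin ℚ {θ a}) ∧
      DB (adjoin ℚ {θ a}) XV := by
    intro a ha
    obtain ⟨r, m, hr, hm1, hm2⟩ := (hAg a ha).index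
    have hr0 : 0 < r := lt_of_le_of_lt (Nat.zero_le _) hr
    obtain ⟨h1, h2⟩ := hIDX n a (θ a) r m T (by omega) hr0 hT1 (hirr a ha) (hθ a) hm1 hm2 (hsiz a ha)
    refine ⟨h1, (hsn a (hAg a ha).cong).2 (θ a) (hθ a), DB_mono h2 ?_⟩
    have hre : (V : ℝ) ^ e ≤ (r : ℝ) := by exact_mod_cast hr.le
    have hr1 : (0 : ℝ) < r := by exact_mod_cast hr0
    have h3 : (n.factorial : ℝ) * T ^ (n * (n - 1) / 2) = K0 * (V : ℝ) ^ (2 * w) := by
      rw [← hw, hT, hK0, mul_pow, ← pow_mul]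
      ring
    rw [h3, hw2, div_pow, hXV, div_le_iff₀ (by positivity)]
    have h4 : (K0 * (V : ℝ) ^ (n * (n - 1))) ^ 2 = K0 ^ 2 * (V : ℝ) ^ D * ((V : ℝ) ^ e) ^ 2 := by
      have h5 : n * (n - 1) * 2 = D + e * 2 := by omega
      rw [mul_pow, ← pow_mul, ← pow_mul, h5, pow_add]
      ring
    rw [h4]
    gcongr
  set Lf : (Fin (n - 1) → ℤ) → IntermediateField ℚ Qb := fun a => adjoin ℚ {θ a} with hLf
  have hfinX := hF XV hXV1
  have hsymfin : (SymF n XV).Finite := hfinX.1.subset (fun L hL => ⟨hL.1, hL.2.1⟩)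
  have himg : ∀ L ∈ A.image Lf, Module.finrank ℚ L = n ∧ Sym L ∧ DB L XV := by
    intro L hL
    obtain ⟨a, ha, rfl⟩ := Finset.mem_image.1 hL
    exact hfld a ha
  set Sd : IntermediateField ℚ Qb → Finset Qb :=
    fun L => (A.filter (fun a => adjoin ℚ {θ a} = L)).image θ with hSd
  have hSdmem : ∀ L, ∀ x ∈ Sd L, x ∈ L ∧ IsIntegral ℤ x ∧ Siz x T ∧
      ∃ a ∈ A, x = θ a := by
    intro L x hx
    obtain ⟨a, ha, rfl⟩ := Finset.mem_image.1 hx
    rw [Finset.mem_filter] at ha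
    refine ⟨?_, hint a, hsiz a ha.1, a, ha.1, rfl⟩
    rw [← ha.2]
    exact IntermediateField.mem_adjoin_simple_self ℚ (θ a)
  obtain ⟨P, hP⟩ : ∃ P : IntermediateField ℚ Qb → Prop,
    ∀ L, P L ↔ J < Module.finrank ℚ (Submodule.span ℚ (Sd L : Set Qb)) := ⟨_, fun _ => Iff.rfl⟩
  obtain ⟨Q, hQ⟩ : ∃ Q : IntermediateField ℚ Qb → Prop,
    ∀ L, Q L ↔ ∃ z ∈ L, IsIntegral ℤ z ∧ z ∉ Set.range (algebraMap ℚ Qb) ∧ Siz z (V : ℝ) :=
    ⟨_, fun _ => Iff.rfl⟩
  have hone : ∀ L, ∀ x ∈ Sd L, ∀ y ∈ Sd L, x ≠ y → Lrg (x - y) 1 := by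
    intro L x hx y hy hxy
    exact hONE _ ((hSdmem L x hx).2.1.sub (hSdmem L y hy).2.1) (sub_ne_zero.2 hxy)
  have key := count3 A Lf P Q ((1 + 2 * T) ^ n) ((1 + 2 * T) ^ J) ((1 + 2 * T / V) ^ J)
    (C₀ * ((KA * (V : ℝ) ^ (2 * (n * c))) ^ 2) ^ E) (C3 * (V : ℝ) ^ (n * (n + 1) / 2))
    ((SymF n XV).ncard : ℝ) (by positivity) (by positivity) (by positivity)
    (by
      intro L hL _
      have h1 := himg L hL
      have := fibre hPKF n (by omega) θ hθ A hirr T hT1 hsiz L h1.1 1 one_pos n (by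
        have : FiniteDimensional ℚ L := FiniteDimensional.of_finrank_pos (by omega)
        have h2 : Submodule.span ℚ (Sd L : Set Qb) ≤ Subalgebra.toSubmodule L.toSubalgebra := by
          rw [Submodule.span_le]
          intro x hx
          exact (hSdmem L x hx).1
        have h3 : FiniteDimensional ℚ (Subalgebra.toSubmodule L.toSubalgebra) := this
        have h4 := Submodule.finrank_mono h2
        exact h4.trans (le_of_eq h1.1)) (hone L)
      rwa [div_one] at this)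
    (by
      intro L hL hnP _
      have h1 := himg L hL
      have := fibre hPKF n (by omega) θ hθ A hirr T hT1 hsiz L h1.1 1 one_pos J
        (not_lt.1 (fun h => hnP ((hP L).2 h)))
        (hone L)
      rwa [div_one] at this)
    (by
      intro L hL hnP hnQ
      have h1 := himg L hL
      refine fibre hPKF n (by omega) θ hθ A hirr T hT1 hsiz L h1.1 V hV0 J
        (not_lt.1 (fun h => hnP ((hP L).2 h))) ?_
      intro x hx y hy hxy
      obtain ⟨hx1, hx2, _, a, ha, hxa⟩ := hSdmem L x hx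
      obtain ⟨hy1, hy2, _, a', ha', hya⟩ := hSdmem L y hy
      have h2 : x - y ∉ Set.range (algebraMap ℚ Qb) := by
        apply t_TRZ n L a a' x y (by omega) h1.1 hx1 hy1 (hirr a ha) (hirr a' ha') _ _ hxy
        · rw [hxa]; exact hθ a
        · rw [hya]; exact hθ a'
      have h3 : ¬ Siz (x - y) (V : ℝ) := by
        intro h4
        exact hnQ ((hQ L).2 ⟨x - y, L.sub_mem hx1 hy1, hx2.sub hy2, h2, h4⟩)
      unfold Siz at h3
      push Not at h3
      obtain ⟨φ, hφ⟩ := h3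
      exact ⟨φ, hφ.le⟩)
    (by
      have hZ1 : 1 ≤ (KA * (V : ℝ) ^ (2 * (n * c))) ^ 2 := by
        apply one_le_pow₀
        have h1 : (1 : ℝ) ≤ (V : ℝ) ^ (2 * (n * c)) := one_le_pow₀ hV1'
        nlinarith
      obtain ⟨h1, h2⟩ := hF _ hZ1
      refine le_trans ?_ h2
      have h3 : ((((A.image Lf).filter P : Finset (IntermediateField ℚ Qb)) :
          Set (IntermediateField ℚ Qb)).ncard : ℝ) = (((A.image Lf).filter P).card : ℝ) := by
        rw [Set.ncard_coe_finset]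
      rw [← h3]
      have h4 : (((A.image Lf).filter P : Finset (IntermediateField ℚ Qb)) :
          Set (IntermediateField ℚ Qb)) ⊆ Flds n ((KA * (V : ℝ) ^ (2 * (n * c))) ^ 2) := by
        intro L hL
        rw [Finset.mem_coe, Finset.mem_filter] at hL
        have h5 := himg L hL.1
        refine ⟨h5.1, ?_⟩
        obtain ⟨u, hu, hlin⟩ := extract (Sd L) J ((hP L).1 hL.2)
        have h6 := hCAS n J c L T u (by omega) h5.1 h5.2.1 hJ hc hT1 (fun i =>
          ⟨(hSdmem L _ (hu i)).1, (hSdmem L _ (hu i)).2.1, (hSdmem L _ (hu i)).2.2.1⟩) hlin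
        refine DB_mono h6 (le_of_eq ?_)
        rw [hT, hKA, mul_pow C2, ← pow_mul (V : ℝ)]
        ring
      exact_mod_cast Set.ncard_le_ncard h4 h1)
    (by
      obtain ⟨h1, h2⟩ := hsmf V hV1'
      refine le_trans ?_ h2
      have h3 : ((((A.image Lf).filter Q : Finset (IntermediateField ℚ Qb)) :
          Set (IntermediateField ℚ Qb)).ncard : ℝ) = (((A.image Lf).filter Q).card : ℝ) := by
        rw [Set.ncard_coe_finset]
      rw [← h3]
      have h4 : (((A.image Lf).filter Q : Finset (IntermediateField ℚ Qb)) :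
          Set (IntermediateField ℚ Qb)) ⊆ {L : IntermediateField ℚ Qb | Module.finrank ℚ L = n ∧
            Sym L ∧ ∃ θ ∈ L, IsIntegral ℤ θ ∧ θ ∉ Set.range (algebraMap ℚ Qb) ∧
            Siz θ (V : ℝ)} := by
        intro L hL
        rw [Finset.mem_coe, Finset.mem_filter] at hL
        have h5 := himg L hL.1
        exact ⟨h5.1, h5.2.1, (hQ L).1 hL.2⟩
      exact_mod_cast Set.ncard_le_ncard h4 h1)
    (by
      have h3 : (((A.image Lf : Finset (IntermediateField ℚ Qb)) :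
          Set (IntermediateField ℚ Qb)).ncard : ℝ) = ((A.image Lf).card : ℝ) := by
        rw [Set.ncard_coe_finset]
      rw [← h3]
      have h4 : ((A.image Lf : Finset (IntermediateField ℚ Qb)) :
          Set (IntermediateField ℚ Qb)) ⊆ SymF n XV := by
        intro L hL
        have h5 := himg L (Finset.mem_coe.1 hL)
        exact ⟨h5.1, h5.2.2, h5.2.1⟩
      exact_mod_cast Set.ncard_le_ncard h4 hsymfin)
  have hfinal := hev V hVb ((SymF n XV).ncard : ℝ) (by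
    have hAc' : (V : ℝ) ^ (n ^ 2 + n - 4 - e) ≤ (A.card : ℝ) := by exact_mod_cast hAc
    refine hAc'.trans (key.trans ?_)
    have hb : 1 + 2 * T ≤ 3 * C2 * (V : ℝ) ^ 2 := by
      rw [hT] at hT1 ⊢
      linarith
    have hbV : 1 + 2 * T / V ≤ 3 * C2 * V := by
      rw [hT]
      have h1 : 2 * (C2 * (V : ℝ) ^ 2) / V = 2 * C2 * V := by
        field_simp
      rw [h1]
      have h2 : 1 ≤ C2 * (V : ℝ) := by nlinarith
      linarith
    have h1 : C₀ * ((KA * (V : ℝ) ^ (2 * (n * c))) ^ 2) ^ E * (1 + 2 * T) ^ n ≤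
        C₀ * (KA ^ 2) ^ E * (3 * C2) ^ n * (V : ℝ) ^ (4 * n * c * E + 2 * n) := by
      have h2 : ((KA * (V : ℝ) ^ (2 * (n * c))) ^ 2) ^ E =
          (KA ^ 2) ^ E * (V : ℝ) ^ (4 * n * c * E) := by
        rw [mul_pow, Real.mul_rpow (by positivity) (by positivity), ← pow_mul,
          ← Real.rpow_natCast (V : ℝ), ← Real.rpow_mul hV0.le]
        congr 2
        push_cast
        ring
      rw [h2]
      have h3 : (1 + 2 * T) ^ n ≤ (3 * C2) ^ n * (V : ℝ) ^ (2 * (n : ℝ)) := by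
        have h4 : (V : ℝ) ^ (2 * (n : ℝ)) = ((V : ℝ) ^ 2) ^ n := by
          rw [← pow_mul, ← Real.rpow_natCast]
          push_cast
          rfl
        rw [h4, ← mul_pow]
        exact pow_le_pow_left₀ (by positivity) hb n
      calc C₀ * ((KA ^ 2) ^ E * (V : ℝ) ^ (4 * n * c * E)) * (1 + 2 * T) ^ n
          ≤ C₀ * ((KA ^ 2) ^ E * (V : ℝ) ^ (4 * n * c * E)) *
            ((3 * C2) ^ n * (V : ℝ) ^ (2 * (n : ℝ))) := by
              apply mul_le_mul_of_nonneg_left h3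
              positivity
        _ = C₀ * (KA ^ 2) ^ E * (3 * C2) ^ n *
            ((V : ℝ) ^ (4 * n * c * E) * (V : ℝ) ^ (2 * (n : ℝ))) := by ring
        _ = _ := by rw [← Real.rpow_add hV0]
    have h5 : C3 * (V : ℝ) ^ (n * (n + 1) / 2) * (1 + 2 * T) ^ J ≤
        C3 * (3 * C2) ^ J * (V : ℝ) ^ (n * (n + 1) / 2 + 2 * J) := by
      calc C3 * (V : ℝ) ^ (n * (n + 1) / 2) * (1 + 2 * T) ^ J
          ≤ C3 * (V : ℝ) ^ (n * (n + 1) / 2) * (3 * C2 * (V : ℝ) ^ 2) ^ J := by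
            gcongr
        _ = _ := by
            rw [mul_pow, ← pow_mul, pow_add]
            ring
    have h6 : ((SymF n XV).ncard : ℝ) * (1 + 2 * T / V) ^ J ≤
        ((SymF n XV).ncard : ℝ) * ((3 * C2) ^ J * (V : ℝ) ^ J) := by
      apply mul_le_mul_of_nonneg_left _ (Nat.cast_nonneg _)
      rw [← mul_pow]
      exact pow_le_pow_left₀ (by positivity) hbV J
    linarith)
  have h7 : n ^ 2 + n - 5 - J - k * (n + 1 - k) = n ^ 2 + n - 4 - e - J - 1 := by
    rw [← he]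
    omega
  rw [h7]
  exact hfinal

end Pool.Agent.D0H41.SF
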